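import Pool.Agent.Work.MP_b5407d_lp_helper90.IBP
import Pool.Agent.Work.MP_b5407d_lp_helper90.BOC
import Pool.Agent.Work.MP_b5407d_lp_helper57.MOA
import Pool.Agent.Work.MP_b5407d_lp_helper71.MOL
import Pool.Agent.Work.MP_b5407d_lp_helper74.ENE
import Pool.Agent.Work.MP_b5407d_lp_helper74.TRA
import Pool.Agent.Work.MP_b5407d_lp_helper36.DEN
import Pool.Agent.Work.MP_b5407d_lp_helper21.HSJ
import Pool.Agent.Work.MP_b5407d_lp_helper21.BLP
import Pool.Agent.Work.MP_b5407d_lp_helper83.SW0
import Pool.Agent.Work.MP_b5407d_lp_helper23.INT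
import Pool.Agent.Work.MP_b5407d_lp_helper36.INT0
import Pool.Agent.Work.MP_b5407d_lp_helper83.VD
import Pool.Agent.Work.MP_b5407d_lp_helper81.TRC
import Pool.Agent.Work.MP_b5407d_lp_helper83.TAIL
import Pool.Agent.Work.MP_b5407d_lp_helper48.POI
import Pool.Agent.Work.MP_b5407d_lp_helper57.TRB
import Pool.Agent.Work.MP_b5407d_lp_helper23.ETA
import Pool.Agent.Work.MP_b5407d_lp_helper37.LOC
import Pool.Agent.Work.MP_b5407d_lp_helper83.TLT
import Pool.Agent.Work.MP_b5407d_lp_helper71.JOH
import Pool.Agent.Work.MP_b5407d_lp_helper21.CHG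
import Pool.Agent.Work.MP_b5407d_lp_helper48.LIN
import Pool.Agent.Work.MP_b5407d_lp_helper36.DIF
import Pool.Agent.Work.MP_b5407d_lp_helper81.MIN
import Pool.Agent.Work.MP_b5407d_lp_helper69.PTH
import Pool.Agent.Work.MP_b5407d_lp_helper69.LIM
import Pool.Agent.Work.MP_b5407d_lp_helper23.POL
import Pool.Agent.Work.MP_b5407d_lp_helper23.CEN
import Pool.Agent.Work.MP_b5407d_lp_helper57.WUL
import Pool.Agent.Work.MP_b5407d_lp_helper57.GEN
import Pool.Agent.Work.MP_b5407d_lp_helper68.EQL
import Pool.Agent.Work.MP_b5407d_lp_helper68.FIN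

/-!
# MP_b5407d_gt: the `L_p`-Brunn-Minkowski inequality for centred convex bodies, all dimensions,
all `p` in `[1 - 1/(6 n^4), 1)`

For a body `L` put `F(L) = min_l ∫_L e^(l.x) dx`; then `F(L) ≤ |L|` with equality for centred `L`,
and `log F` is shown to be concave along `L_p` paths: at the minimising tilt its second derivative
is controlled by a Poincaré inequality and a trace inequality in John position of `L ∩ -L`.
Everything is done for soft polytopes (smooth log-concave weights) and passed to the limit.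
-/

set_option autoImplicit false
open MeasureTheory

namespace Pool.Agent.Results.MP_b5407d_gt.NearOne

open Pool.Agent.Work.LPBM

theorem fin : Stmt_FIN := by
  have hIBP := helper90.stmt_IBP
  have hBOC := helper90.stmt_BOC hIBP
  have hMOL := helper71.stmt_MOL helper57.stmt_MOA
  have hDEN := helper36.stmt_DEN hMOL helper74.stmt_ENE helper74.stmt_TRA
  have hHSJ := helper21.stmt_HSJ hIBP hBOC hDEN
  have hBLP := helper21.stmt_BLP hIBP hBOC hDEN
  have hSW := helper83.stmt_SW0
  have hINT := helper23.stmt_INT hSW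
  have hINT0 := helper36.stmt_INT0 hSW hINT
  have hVD := helper83.stmt_VD hSW
  have hTRC := helper81.stmt_TRC hSW hINT hVD
  have hTAIL := helper83.stmt_TAIL hSW
  have hPOI := helper48.stmt_POI hSW hINT hVD hTRC hTAIL hBLP
  have hTRB := helper57.stmt_TRB hSW hINT hTRC hTAIL hPOI
  have hETA := helper23.stmt_ETA hSW hINT
  have hLOC := helper37.stmt_LOC hSW hINT hVD hHSJ hTRB hETA
  have hTLT := helper83.stmt_TLT hSW hINT
  have hLIN := helper48.stmt_LIN hTLT helper71.stmt_JOH helper21.stmt_CHG hLOC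
  have hDIF := helper36.stmt_DIF hSW hINT
  have hMIN := helper81.stmt_MIN hSW hINT
  have hPTH := helper69.stmt_PTH hSW hINT hDIF hMIN
  have hLIM := helper69.stmt_LIM hSW hINT0
  have hPOL := helper23.stmt_POL hSW hINT hLIN hPTH hLIM
  have hCEN := helper23.stmt_CEN
  have hGEN := helper57.stmt_GEN hPOL hCEN helper57.stmt_WUL
  have hEQL := helper68.stmt_EQL hGEN hCEN
  exact helper68.stmt_FIN hGEN hCEN hEQL

/-- **The `L_p`-Brunn-Minkowski inequality for centred convex bodies** in every dimension `n ≥ 2`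
and for every `p` with `0 < p < 1` and `(1 - p) 6 n⁴ ≤ 1`, with the equality cases. -/
theorem result :
  ∀ (n : ℕ), 2 ≤ n → ∀ (p : ℝ), 0 < p → p < 1 → (1 - p) * (6 * (n : ℝ) ^ 4) ≤ 1 →
  ∀ (K C : Set (EuclideanSpace ℝ (Fin n))),
    Convex ℝ K → IsCompact K → (interior K).Nonempty →
    Convex ℝ C → IsCompact C → (interior C).Nonempty →
    (∫ x in K, x) = 0 → (∫ x in C, x) = 0 →
    ∀ (α β : ℝ), 0 < α → 0 < β →
      (α * (volume K).toReal ^ (p / (n : ℝ)) + β * (volume C).toReal ^ (p / (n : ℝ))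
        ≤ (volume {x : EuclideanSpace ℝ (Fin n) |
              ∀ u ∈ Metric.sphere (0 : EuclideanSpace ℝ (Fin n)) 1,
                inner ℝ x u ≤ (α * (sSup ((fun y : EuclideanSpace ℝ (Fin n) => inner ℝ y u) '' K)) ^ p
                    + β * (sSup ((fun y : EuclideanSpace ℝ (Fin n) => inner ℝ y u) '' C)) ^ p) ^ (1 / p)}).toReal ^ (p / (n : ℝ)))
      ∧ ((volume {x : EuclideanSpace ℝ (Fin n) |
              ∀ u ∈ Metric.sphere (0 : EuclideanSpace ℝ (Fin n)) 1,
                inner ℝ x u ≤ (α * (sSup ((fun y : EuclideanSpace ℝ (Fin n) => inner ℝ y u) '' K)) ^ p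
                    + β * (sSup ((fun y : EuclideanSpace ℝ (Fin n) => inner ℝ y u) '' C)) ^ p) ^ (1 / p)}).toReal ^ (p / (n : ℝ))
          = α * (volume K).toReal ^ (p / (n : ℝ)) + β * (volume C).toReal ^ (p / (n : ℝ))
        ↔ ∃ t : ℝ, 0 < t ∧ C = (fun x : EuclideanSpace ℝ (Fin n) => t • x) '' K) := by
  exact fin

end Pool.Agent.Results.MP_b5407d_gt.NearOne
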