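import Mathlib
import Pool.Agent.Work.MP_b5407d_nc_helper97.PosFinal

set_option autoImplicit false
open MeasureTheory

namespace Pool.Agent.Results.MP_b5407d_gt.PlanarAll

/-- The support function `h_K(u) = sup_{y ∈ K} ⟨y, u⟩` of a subset of the plane. -/
noncomputable def supp (K : Set (EuclideanSpace ℝ (Fin 2))) (u : EuclideanSpace ℝ (Fin 2)) : ℝ :=
  sSup ((fun y : EuclideanSpace ℝ (Fin 2) => inner ℝ y u) '' K)

/-- The `L_p` combination `α K +_p β C`: the Wulff shape of `(α h_K^p + β h_C^p)^(1/p)`. -/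
noncomputable def lpComb (p α β : ℝ) (K C : Set (EuclideanSpace ℝ (Fin 2))) :
    Set (EuclideanSpace ℝ (Fin 2)) :=
  {x | ∀ u ∈ Metric.sphere (0 : EuclideanSpace ℝ (Fin 2)) 1,
    inner ℝ x u ≤ (α * supp K u ^ p + β * supp C u ^ p) ^ (1 / p)}

/-- The `L_p`-Brunn-Minkowski inequality with its equality case for all centered convex bodies
of the plane and all `p` in `(0, 1)`. -/
theorem result :
  ∀ (p : ℝ), 0 < p → p < 1 →
  ∀ (K C : Set (EuclideanSpace ℝ (Fin 2))),
    Convex ℝ K → IsCompact K → (interior K).Nonempty →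
    Convex ℝ C → IsCompact C → (interior C).Nonempty →
    (∫ x in K, x) = 0 → (∫ x in C, x) = 0 →
    ∀ (α β : ℝ), 0 < α → 0 < β →
      α * (volume K).toReal ^ (p / 2) + β * (volume C).toReal ^ (p / 2) ≤
          (volume (lpComb p α β K C)).toReal ^ (p / 2) ∧
      ((volume (lpComb p α β K C)).toReal ^ (p / 2) =
          α * (volume K).toReal ^ (p / 2) + β * (volume C).toReal ^ (p / 2) ↔
        ∃ t : ℝ, 0 < t ∧ C = (fun x : EuclideanSpace ℝ (Fin 2) => t • x) '' K) := by
  intro p hp _ K C hKc hKk hKi hCc hCk hCi hK0 hC0 α β hα hβ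
  exact Pool.LBM.planar_of_pos Pool.LBM.pos p hp K C hKc hKk hKi hCc hCk hCi hK0 hC0 α β hα hβ

end Pool.Agent.Results.MP_b5407d_gt.PlanarAll
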