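import Pool.Agent.Work.MP_b5407d_g1.Final
import Pool.Agent.Work.MP_b5407d_nb.NBDone

/-!
# MP_b5407d_gt: the L_p-Brunn-Minkowski inequality for all origin symmetric convex bodies of R^3, 0 < p < 1

The three-dimensional part reduces the local inequality for polytopes (with variable normals: compactness,
tilt of the facet of largest ratio) to a planar inequality for the polygon of this facet; see
`Pool.Agent.Work.MP_b5407d_g1`; the planar inequality is `Pool.G1.NB.PL_done`.
-/

set_option autoImplicit false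

open MeasureTheory
open scoped Pointwise ENNReal

namespace Pool.Agent.Results.MP_b5407d_gt.SymmetricAll

/-- the `L_p`-Brunn-Minkowski inequality in `ℝ³`, origin symmetric bodies, `0 < p < 1` -/
theorem result :
  ∀ (p : ℝ), 0 < p → p < 1 →
  ∀ (K C : Set (EuclideanSpace ℝ (Fin 3))),
    Convex ℝ K → IsCompact K → (interior K).Nonempty → (∀ x ∈ K, -x ∈ K) →
    Convex ℝ C → IsCompact C → (interior C).Nonempty → (∀ x ∈ C, -x ∈ C) →
    ∀ (α β : ℝ), 0 < α → 0 < β →
      (α * (volume K).toReal ^ (p / 3) + β * (volume C).toReal ^ (p / 3)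
        ≤ (volume {x : EuclideanSpace ℝ (Fin 3) |
              ∀ u ∈ Metric.sphere (0 : EuclideanSpace ℝ (Fin 3)) 1,
                inner ℝ x u ≤ (α * (sSup ((fun y : EuclideanSpace ℝ (Fin 3) => inner ℝ y u) '' K)) ^ p
                    + β * (sSup ((fun y : EuclideanSpace ℝ (Fin 3) => inner ℝ y u) '' C)) ^ p) ^ (1 / p)}).toReal ^ (p / 3))
      ∧ ((volume {x : EuclideanSpace ℝ (Fin 3) |
              ∀ u ∈ Metric.sphere (0 : EuclideanSpace ℝ (Fin 3)) 1,
                inner ℝ x u ≤ (α * (sSup ((fun y : EuclideanSpace ℝ (Fin 3) => inner ℝ y u) '' K)) ^ p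
                    + β * (sSup ((fun y : EuclideanSpace ℝ (Fin 3) => inner ℝ y u) '' C)) ^ p) ^ (1 / p)}).toReal ^ (p / 3)
          = α * (volume K).toReal ^ (p / 3) + β * (volume C).toReal ^ (p / 3)
        ↔ ∃ t : ℝ, 0 < t ∧ C = (fun x : EuclideanSpace ℝ (Fin 3) => t • x) '' K) :=
  Pool.G1.Final.sym Pool.G1.NB.PL_done

end Pool.Agent.Results.MP_b5407d_gt.SymmetricAll
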