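import Pool.Agent.Work.MP_b5407d_us.All

/-!
# MP_b5407d_gt: the L_p-Brunn-Minkowski inequality for unconditional sums, all dimensions, 0 < p < 1

`R^n` is split (by any linear isomorphism) into blocks `R^{d_i}`; `K` is the set of all `x` whose block components
are `x_i = s_i y_i`, `y_i ∈ A_i`, `s ∈ U`, for convex bodies `A_i` and a profile `U`; `C` likewise, with other bodies
`B_i` and another profile `V`.  The pairs `A_i, B_i` are arbitrary centered bodies if `d_i ≤ 2`, arbitrary symmetric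
bodies if `d_i = 3`, and `A_i = B_i` is an arbitrary centered body in every dimension `d_i`.  If `K` and `C` are
convex bodies they are centered.  (`m = 1` is `PlanarAll` and `SymmetricAll`, so `2 ≤ m` here.)
-/

set_option autoImplicit false

open MeasureTheory
open scoped Pointwise ENNReal

namespace Pool.Agent.Results.MP_b5407d_gt.UnconditionalSums

/-- a convex body -/
def Body {n : ℕ} (K : Set (EuclideanSpace ℝ (Fin n))) : Prop :=
  Convex ℝ K ∧ IsCompact K ∧ (interior K).Nonempty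

/-- a convex body with centroid at the origin -/
def Centered {n : ℕ} (K : Set (EuclideanSpace ℝ (Fin n))) : Prop :=
  Body K ∧ (∫ x in K, x) = 0

/-- admissible pairs of factors: `d ≤ 2` and both centered; or `d = 3` and both symmetric about the origin;
or any `d`, centered and equal -/
def Factors {d : ℕ} (A B : Set (EuclideanSpace ℝ (Fin d))) : Prop :=
  1 ≤ d ∧ ((d ≤ 2 ∧ Centered A ∧ Centered B) ∨
    (d = 3 ∧ Body A ∧ Body B ∧ (∀ x ∈ A, -x ∈ A) ∧ (∀ x ∈ B, -x ∈ B)) ∨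
    (Centered A ∧ B = A))

/-- a profile: a compact set of nonnegative vectors which contains with `s` every `r` with `0 ≤ r ≤ s` -/
def Profile {m : ℕ} (U : Set (Fin m → ℝ)) : Prop :=
  IsCompact U ∧ (∀ s ∈ U, ∀ i, 0 ≤ s i) ∧
    ∀ s ∈ U, ∀ r : Fin m → ℝ, (∀ i, 0 ≤ r i ∧ r i ≤ s i) → r ∈ U

/-- the sum of the `A i` with profile `U`, in the coordinates given by `Φ`:
all `Φ (s_1 y_1, ..., s_m y_m)` with `s ∈ U` and `y_i ∈ A_i` -/
def ProfileSum {n m : ℕ} {d : Fin m → ℕ}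
    (Φ : (∀ i : Fin m, EuclideanSpace ℝ (Fin (d i))) ≃ₗ[ℝ] EuclideanSpace ℝ (Fin n))
    (U : Set (Fin m → ℝ)) (A : ∀ i : Fin m, Set (EuclideanSpace ℝ (Fin (d i)))) :
    Set (EuclideanSpace ℝ (Fin n)) :=
  {x | ∃ s ∈ U, ∃ y : ∀ i : Fin m, EuclideanSpace ℝ (Fin (d i)), (∀ i, y i ∈ A i) ∧
    x = Φ (fun i => s i • y i)}

theorem cbody_of {d : ℕ} {A : Set (EuclideanSpace ℝ (Fin d))} (h : Centered A) :
    Pool.Agent.Work.LPBM.CBody A := ⟨h.1.1, h.1.2.1, h.1.2.2, h.2⟩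

theorem sum_eq {n m : ℕ} {d : Fin m → ℕ}
    (Φ : (∀ i : Fin m, EuclideanSpace ℝ (Fin (d i))) ≃ₗ[ℝ] EuclideanSpace ℝ (Fin n))
    (U : Set (Fin m → ℝ)) (A : ∀ i : Fin m, Set (EuclideanSpace ℝ (Fin (d i)))) :
    ProfileSum Φ U A = Φ '' Pool.US.USum U A := by
  ext x
  constructor
  · rintro ⟨s, hs, y, hy, rfl⟩
    exact ⟨_, ⟨s, hs, fun i => ⟨y i, hy i, rfl⟩⟩, rfl⟩
  · rintro ⟨z, ⟨s, hs, hz⟩, rfl⟩
    choose y hy hzy using hz
    exact ⟨s, hs, y, hy, by congr 1; funext i; exact hzy i⟩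

theorem fac_of {d : ℕ} {A B : Set (EuclideanSpace ℝ (Fin d))} (h : Factors A B) :
    Pool.US.FacG A B := by
  obtain ⟨hd, h⟩ := h
  rcases h with ⟨h1, hA, hB⟩ | ⟨h3, hA, hB, sA, sB⟩ | ⟨hA, rfl⟩
  · exact ⟨cbody_of hA, cbody_of hB, hd, Or.inl h1⟩
  · exact ⟨cbody_of ⟨hA, Pool.US.p_SYC _ _ sA⟩, cbody_of ⟨hB, Pool.US.p_SYC _ _ sB⟩, hd,
      Or.inr (Or.inl ⟨h3, sA, sB⟩)⟩
  · exact ⟨cbody_of hA, cbody_of hA, hd, Or.inr (Or.inr rfl)⟩

/-- the `L_p`-Brunn-Minkowski inequality for unconditional sums -/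
theorem result :
  ∀ (p : ℝ), 0 < p → p < 1 → ∀ (n : ℕ), 2 ≤ n →
  ∀ (m : ℕ), 2 ≤ m → ∀ (d : Fin m → ℕ)
    (Φ : (∀ i : Fin m, EuclideanSpace ℝ (Fin (d i))) ≃ₗ[ℝ] EuclideanSpace ℝ (Fin n))
    (A B : ∀ i : Fin m, Set (EuclideanSpace ℝ (Fin (d i)))), (∀ i, Factors (A i) (B i)) →
  ∀ (U V : Set (Fin m → ℝ)), Profile U → Profile V →
  ∀ (K C : Set (EuclideanSpace ℝ (Fin n))), K = ProfileSum Φ U A → C = ProfileSum Φ V B →
    Body K → Body C → Centered K ∧ Centered C ∧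
    ∀ (α β : ℝ), 0 < α → 0 < β →
      (α * (volume K).toReal ^ (p / (n : ℝ)) + β * (volume C).toReal ^ (p / (n : ℝ))
        ≤ (volume {x : EuclideanSpace ℝ (Fin n) |
              ∀ u ∈ Metric.sphere (0 : EuclideanSpace ℝ (Fin n)) 1,
                inner ℝ x u ≤ (α * (sSup ((fun y : EuclideanSpace ℝ (Fin n) => inner ℝ y u) '' K)) ^ p
                    + β * (sSup ((fun y : EuclideanSpace ℝ (Fin n) => inner ℝ y u) '' C)) ^ p) ^ (1 / p)}).toReal ^ (p / (n : ℝ)))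
      ∧ ((volume {x : EuclideanSpace ℝ (Fin n) |
              ∀ u ∈ Metric.sphere (0 : EuclideanSpace ℝ (Fin n)) 1,
                inner ℝ x u ≤ (α * (sSup ((fun y : EuclideanSpace ℝ (Fin n) => inner ℝ y u) '' K)) ^ p
                    + β * (sSup ((fun y : EuclideanSpace ℝ (Fin n) => inner ℝ y u) '' C)) ^ p) ^ (1 / p)}).toReal ^ (p / (n : ℝ))
          = α * (volume K).toReal ^ (p / (n : ℝ)) + β * (volume C).toReal ^ (p / (n : ℝ))
        ↔ ∃ t : ℝ, 0 < t ∧ C = (fun x : EuclideanSpace ℝ (Fin n) => t • x) '' K) := by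
  intro p hp0 hp1 n hn m _ d Φ A B hF U V hU hV K C hKe hCe hK hC
  subst hKe
  subst hCe
  rw [sum_eq] at hK hC ⊢
  rw [sum_eq]
  obtain ⟨h1, h2, h3⟩ := Pool.US.all p hp0 hp1 n (by omega) m d Φ A B (fun i => fac_of (hF i)) U V
    ⟨hU.1, hU.2.1, hU.2.2⟩ ⟨hV.1, hV.2.1, hV.2.2⟩
    hK.1 hK.2.1 hK.2.2 hC.1 hC.2.1 hC.2.2
  exact ⟨⟨hK, h1⟩, ⟨hC, h2⟩, h3⟩

end Pool.Agent.Results.MP_b5407d_gt.UnconditionalSums
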